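import Pool.Agent.helper35.MR.SpecA

/-!
# BALL: form B with `δ ≠ 0`
-/

set_option autoImplicit false

open Finset Pool.Agent.RRank

namespace Pool.Agent.helper35.MR

theorem BALL_ot1 {K : Type} [Field K] {V : ℤ → ℤ → ℤ → K} (h : OT3 V) :
    OT3 (fun x y z => V y x z) := by
  intro x y z x' y' z' h1 h2 h3
  refine h _ _ _ _ _ _ ?_ h3 h2
  rw [← cmp_swap, h1, cmp_swap]

theorem BALL_ot2 {K : Type} [Field K] {V : ℤ → ℤ → ℤ → K} (h : OT3 V) :
    OT3 (fun x y z => V x z y) := by
  intro x y z x' y' z' h1 h2 h3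
  refine h _ _ _ _ _ _ h3 ?_ h1
  rw [← cmp_swap, h2, cmp_swap]

theorem BALL_b1 {K : Type} [Field K] {V : ℤ → ℤ → ℤ → K} {a b c : Ordering → K} {δ : K}
    (h : BForm V a b c δ) : BForm (fun x y z => V y x z) (fun o => a o.swap) c b δ := by
  intro x y z
  have h1 := h y x z
  have h2 : (y = x ∧ x = z) = (x = y ∧ y = z) := by
    apply propext
    constructor
    · rintro ⟨rfl, rfl⟩; exact ⟨rfl, rfl⟩
    · rintro ⟨rfl, rfl⟩; exact ⟨rfl, rfl⟩
  show V y x z = a (cmp x y).swap + c (cmp y z) + b (cmp x z) + _
  rw [h1, cmp_swap]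
  simp only [h2]
  ring

theorem BALL_b2 {K : Type} [Field K] {V : ℤ → ℤ → ℤ → K} {a b c : Ordering → K} {δ : K}
    (h : BForm V a b c δ) : BForm (fun x y z => V x z y) c (fun o => b o.swap) a δ := by
  intro x y z
  have h1 := h x z y
  have h2 : (x = z ∧ z = y) = (x = y ∧ y = z) := by
    apply propext
    constructor
    · rintro ⟨rfl, rfl⟩; exact ⟨rfl, rfl⟩
    · rintro ⟨rfl, rfl⟩; exact ⟨rfl, rfl⟩
  show V x z y = c (cmp x y) + b (cmp y z).swap + a (cmp x z) + _
  rw [h1, cmp_swap]
  simp only [h2]
  ring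

theorem BALL_val {K : Type} [Field K] (a : Ordering → K) (h : a .lt = a .gt) (x y : ℤ) :
    a (cmp x y) = a .gt + (if x = y then a .eq - a .gt else 0) := by
  rcases lt_trichotomy x y with h1 | h1 | h1
  · rw [(cmp_eq_lt_iff x y).2 h1, if_neg h1.ne, h, add_zero]
  · rw [(cmp_eq_eq_iff x y).2 h1, if_pos h1]
    ring
  · rw [(cmp_eq_gt_iff x y).2 h1, if_neg h1.ne', add_zero]

/-- Case of no nonzero difference, third tie value zero. -/
theorem BALL_c0 (hU3 : U3_stmt) {K : Type} [Field K] {V : ℤ → ℤ → ℤ → K} {a b c : Ordering → K}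
    {δ : K} (h : BForm V a b c δ) (hδ : δ ≠ 0) (ha : a .lt = a .gt) (hb : b .lt = b .gt)
    (hc : c .lt = c .gt) (hs : a .lt + b .lt + c .lt = 0) (hA : a .eq ≠ a .gt)
    (hC : c .eq = c .gt) (n : ℕ) : Good3 V (n + 1) := by
  refine hU3 K V (a .eq - a .gt) (b .eq - b .gt) δ (sub_ne_zero.2 hA) hδ ?_ n
  intro x y z
  rw [h x y z, BALL_val a ha, BALL_val b hb, BALL_val c hc, hC]
  rw [ha, hb, hc] at hs
  have e : (if x = z then c .gt - c .gt else 0) = 0 := by split_ifs <;> ring
  rw [e]
  linear_combination hs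

/-- Case of one nonzero difference. -/
theorem BALL_c1 (hB3 : B3_stmt) (hSYM : SYM_stmt) {K : Type} [Field K] {V : ℤ → ℤ → ℤ → K}
    {a b c : Ordering → K} {δ : K} (h : BForm V a b c δ) (hδ : δ ≠ 0) (ha : a .lt ≠ a .gt)
    (hb : b .lt = b .gt) (hc : c .lt = c .gt) {n : ℕ} (hn : 2 ≤ n) : Good3 V (n + 1) := by
  by_cases hs : a .lt + b .lt + c .lt = 0
  · refine (hSYM K V (n + 1)).1 ?_
    refine hB3 K _ (fun o => a o.swap) c b δ (BALL_b1 h) hδ ?_ hc hb ?_ n hn
    · exact ha.symm
    · show a .gt + c .lt + b .lt ≠ 0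
      intro h1
      apply ha
      linear_combination hs - h1
  · exact hB3 K V a b c δ h hδ ha hb hc hs n hn

theorem BALL (hB1 : B1_stmt) (hB1S : B1S_stmt) (hB2 : B2_stmt) (hB3 : B3_stmt) (hU1 : U1_stmt)
    (hU2 : U2_stmt) (hU3 : U3_stmt) (hU4 : U4_stmt) (hSYM : SYM_stmt) : BALL_stmt := by
  intro K _ V a b c δ hot h hδ l hl
  obtain ⟨n, rfl⟩ : ∃ n, l = n + 1 := ⟨l - 1, by omega⟩
  have hn : 2 ≤ n := by omega
  have S := hSYM K V (n + 1)
  by_cases ha : a .lt = a .gt
  · by_cases hb : b .lt = b .gt
    · by_cases hc : c .lt = c .gt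
      · -- no nonzero difference
        by_cases hs : a .lt + b .lt + c .lt = 0
        · by_cases hC : c .eq = c .gt
          · by_cases hA : a .eq = a .gt
            · by_cases hB : b .eq = b .gt
              · refine hU4 K V δ hδ ?_ (n + 1)
                intro x y z
                rw [h x y z, BALL_val a ha, BALL_val b hb, BALL_val c hc, hC, hA, hB]
                rw [ha, hb, hc] at hs
                simp only [sub_self, ite_self, add_zero]
                rw [hs, zero_add]
              · -- `b` only: exchange `x`, `y`, then `y`, `z`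
                refine S.1 ?_
                refine (hSYM K _ (n + 1)).2.1 ?_
                refine BALL_c0 hU3 (BALL_b2 (BALL_b1 h)) hδ hb hc.symm ha.symm ?_ hB ?_ n
                · show b .lt + c .gt + a .gt = 0
                  rw [← ha, ← hc]
                  linear_combination hs
                · show a .eq = a .lt
                  rw [hA, ha]
            · exact BALL_c0 hU3 h hδ ha hb hc hs hA hC n
          · by_cases hA : a .eq = a .gt
            · refine S.2.1 ?_
              refine BALL_c0 hU3 (BALL_b2 h) hδ hc hb.symm ha ?_ hC hA n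
              show c .lt + b .gt + a .lt = 0
              rw [← hb]
              linear_combination hs
            · by_cases hB : b .eq = b .gt
              · refine S.1 ?_
                refine BALL_c0 hU3 (BALL_b1 h) hδ ha.symm hc hb ?_ ?_ hB n
                · show a .gt + c .lt + b .lt = 0
                  rw [← ha]
                  linear_combination hs
                · show a .eq ≠ a .lt
                  rw [ha]
                  exact hA
              · exact hU2 K V a b c δ h hδ ha hb hc hA hB hC n (by omega)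
        · exact hU1 K V a b c δ h hδ ha hb hc hs n
      · -- only `c`
        refine S.2.1 ?_
        exact BALL_c1 hB3 hSYM (BALL_b2 h) hδ hc hb.symm ha hn
    · by_cases hc : c .lt = c .gt
      · -- only `b`
        refine S.1 ?_
        refine (hSYM K _ (n + 1)).2.1 ?_
        exact BALL_c1 hB3 hSYM (BALL_b2 (BALL_b1 h)) hδ hb hc.symm ha.symm hn
      · -- `b`, `c`
        refine S.2.1 ?_
        exact hB2 K _ c (fun o => b o.swap) a δ (BALL_b2 h) hδ hc (Ne.symm hb) ha n hn
  · by_cases hb : b .lt = b .gt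
    · by_cases hc : c .lt = c .gt
      · exact BALL_c1 hB3 hSYM h hδ ha hb hc hn
      · -- `a`, `c`
        refine S.1 ?_
        exact hB2 K _ (fun o => a o.swap) c b δ (BALL_b1 h) hδ (Ne.symm ha) hc hb n hn
    · by_cases hc : c .lt = c .gt
      · exact hB2 K V a b c δ h hδ ha hb hc n hn
      · by_cases hn3 : 3 ≤ n
        · exact hB1 K V a b c δ h hδ ha hb hc n hn3
        · obtain rfl : n = 2 := by omega
          by_cases h0 : V 0 1 2 = 0
          · refine S.2.1 ?_
            refine hB1S K _ c (fun o => b o.swap) a δ (BALL_ot2 hot) (BALL_b2 h) hc (Ne.symm hb)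
              ha ?_
            show V 0 2 1 ≠ 0
            intro h1
            have e1 : V 0 1 2 = a .lt + b .lt + c .lt := by
              rw [h 0 1 2, if_neg (by norm_num)]
              rw [(cmp_eq_lt_iff (0 : ℤ) 1).2 (by norm_num),
                (cmp_eq_lt_iff (1 : ℤ) 2).2 (by norm_num),
                (cmp_eq_lt_iff (0 : ℤ) 2).2 (by norm_num), add_zero]
            have e2 : V 0 2 1 = a .lt + b .gt + c .lt := by
              rw [h 0 2 1, if_neg (by norm_num)]
              rw [(cmp_eq_lt_iff (0 : ℤ) 2).2 (by norm_num),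
                (cmp_eq_gt_iff (2 : ℤ) 1).2 (by norm_num),
                (cmp_eq_lt_iff (0 : ℤ) 1).2 (by norm_num), add_zero]
            apply hb
            rw [h0] at e1
            rw [h1] at e2
            linear_combination e2 - e1
          · exact hB1S K V a b c δ hot h ha hb hc h0

end Pool.Agent.helper35.MR
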