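import Pool.Agent.helper35.MR.SpecA

/-!
# CNV: conversion between `(Fin 3 → ℤ)` and three variables
-/

set_option autoImplicit false

open Finset Pool.Agent.RRank

namespace Pool.Agent.helper35.MR

theorem CNV_cmp {x y x' y' : ℤ} (h : cmp x y = cmp x' y') : (x < y ↔ x' < y') ∧ (y < x ↔ y' < x') := by
  constructor
  · rw [← cmp_eq_lt_iff, ← cmp_eq_lt_iff, h]
  · rw [← cmp_eq_gt_iff, ← cmp_eq_gt_iff, h]

theorem CNV_cmp' {x y x' y' : ℤ} (h : x < y ↔ x' < y') (h' : y < x ↔ y' < x') :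
    cmp x y = cmp x' y' := by
  rcases lt_trichotomy x y with h1 | h1 | h1
  · rw [(cmp_eq_lt_iff x y).2 h1, (cmp_eq_lt_iff x' y').2 (h.1 h1)]
  · have h2 : x' = y' := by
      rcases lt_trichotomy x' y' with h3 | h3 | h3
      · exact absurd (h.2 h3) (by omega)
      · exact h3
      · exact absurd (h'.2 h3) (by omega)
    rw [(cmp_eq_eq_iff x y).2 h1, (cmp_eq_eq_iff x' y').2 h2]
  · rw [(cmp_eq_gt_iff x y).2 h1, (cmp_eq_gt_iff x' y').2 (h'.1 h1)]

/-- the function which ignores one variable -/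
def CNV_g {K : Type} (a b c : Ordering → K) (α : Fin 3) (x : Fin 3 → ℤ) : K :=
  if α = 0 then b (cmp (x 1) (x 2)) else if α = 1 then c (cmp (x 0) (x 2))
    else a (cmp (x 0) (x 1))

theorem CNV_g0 {K : Type} (a b c : Ordering → K) (x : Fin 3 → ℤ) :
    CNV_g a b c 0 x = b (cmp (x 1) (x 2)) := if_pos rfl

theorem CNV_g1 {K : Type} (a b c : Ordering → K) (x : Fin 3 → ℤ) :
    CNV_g a b c 1 x = c (cmp (x 0) (x 2)) :=
  (if_neg (by decide)).trans (if_pos rfl)

theorem CNV_g2 {K : Type} (a b c : Ordering → K) (x : Fin 3 → ℤ) :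
    CNV_g a b c 2 x = a (cmp (x 0) (x 1)) :=
  (if_neg (by decide)).trans (if_neg (by decide))

theorem CNV_fin : ∀ α : Fin 3, α = 0 ∨ α = 1 ∨ α = 2 := by decide

theorem CNV : CNV_stmt := by
  intro C K _ val V' hV
  refine ⟨?_, fun hL h3 => hL ?_⟩
  · intro x y z x' y' z' h1 h2 h3
    apply hV
    obtain ⟨a1, a2⟩ := CNV_cmp h1
    obtain ⟨b1, b2⟩ := CNV_cmp h2
    obtain ⟨c1, c2⟩ := CNV_cmp h3
    intro α β
    fin_cases α <;> fin_cases β <;> simp [a1, a2, b1, b2, c1, c2]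
  · obtain ⟨a, b, c, h⟩ := h3
    refine ⟨CNV_g a b c, ?_, ?_, ?_⟩
    · intro α x y hxy
      have e : ∀ i j, cmp (x i) (x j) = cmp (y i) (y j) := fun i j =>
        CNV_cmp' (hxy i j) (hxy j i)
      unfold CNV_g
      rw [e, e, e]
    · intro α x y hxy
      rcases CNV_fin α with rfl | rfl | rfl
      · rw [CNV_g0, CNV_g0, hxy 1 (by decide), hxy 2 (by decide)]
      · rw [CNV_g1, CNV_g1, hxy 0 (by decide), hxy 2 (by decide)]
      · rw [CNV_g2, CNV_g2, hxy 0 (by decide), hxy 1 (by decide)]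
    · intro x
      have hx : x = ![x 0, x 1, x 2] := by
        ext i
        fin_cases i <;> rfl
      have h1 : val (V' ![x 0, x 1, x 2]) = a (cmp (x 0) (x 1)) + b (cmp (x 1) (x 2)) +
        c (cmp (x 0) (x 2)) := h (x 0) (x 1) (x 2)
      rw [← hx] at h1
      show val (V' x) = _
      rw [h1, Fin.sum_univ_three, CNV_g0, CNV_g1, CNV_g2]
      ring

end Pool.Agent.helper35.MR
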